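import Pool.Agent.helper55.GL.Spec
set_option autoImplicit false
namespace Pool.Agent.GL
open SimpleGraph

theorem SCL : SCL_stmt := by
  intro W K n hn
  have h := SimpleGraph.antitoneOn_extremalNumber_div_choose_two (H := K)
  have h1 := h (a := n) (b := 2 * n) (by simpa using hn) (by simp; omega) (by omega)
  have hc : (0 : ℝ) < (n.choose 2 : ℕ) := by
    exact_mod_cast Nat.choose_pos hn
  have hc2 : (0 : ℝ) < ((2 * n).choose 2 : ℕ) := by
    exact_mod_cast Nat.choose_pos (by omega)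
  have h2 : (extremalNumber (2 * n) K : ℝ) / ((2 * n).choose 2 : ℕ)
      ≤ (extremalNumber n K : ℝ) / (n.choose 2 : ℕ) := h1
  rw [div_le_div_iff₀ hc2 hc] at h2
  have e1 : ((n.choose 2 : ℕ) : ℝ) = (n : ℝ) * (n - 1) / 2 := Nat.cast_choose_two ℝ n
  have e2 : (((2 * n).choose 2 : ℕ) : ℝ) = (2 * n : ℝ) * (2 * n - 1) / 2 := by
    rw [Nat.cast_choose_two]; push_cast; ring
  rw [e1, e2] at h2
  have hn' : (2 : ℝ) ≤ n := by exact_mod_cast hn
  have hE : (0 : ℝ) ≤ (extremalNumber n K : ℝ) := Nat.cast_nonneg _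
  have key : (extremalNumber (2 * n) K : ℝ) ≤ 6 * (extremalNumber n K : ℝ) := by
    have h3 : (extremalNumber (2 * n) K : ℝ) * ((n : ℝ) * (n - 1) / 2)
        ≤ (6 * (extremalNumber n K : ℝ)) * ((n : ℝ) * (n - 1) / 2) := by
      refine h2.trans ?_
      have h4 : (2 * n : ℝ) * (2 * n - 1) / 2 ≤ 6 * ((n : ℝ) * (n - 1) / 2) := by nlinarith
      calc (extremalNumber n K : ℝ) * ((2 * n : ℝ) * (2 * n - 1) / 2)
          ≤ (extremalNumber n K : ℝ) * (6 * ((n : ℝ) * (n - 1) / 2)) :=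
            mul_le_mul_of_nonneg_left h4 hE
        _ = _ := by ring
    have hp : (0 : ℝ) < (n : ℝ) * (n - 1) / 2 := by
      have : (0 : ℝ) < n := by linarith
      have : (0 : ℝ) < (n : ℝ) - 1 := by linarith
      positivity
    exact le_of_mul_le_mul_right h3 hp
  exact_mod_cast key

end Pool.Agent.GL
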